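import Pool.Agent.helper69.CM.Main

set_option autoImplicit false

/-!
# The simultaneous Lehmer problem for radicals over the compositum of a number field and the
maximal CM field
-/

open Module IntermediateField
open Pool.Agent.helper79.SL Pool.Agent.helper69.SLH Pool.Agent.helper69.CM

/-- `Lcm` is the field generated by `i` and all totally real algebraic numbers. -/
theorem Pool.Agent.Results.MP_8298ec_nt.CMRadicals.result :
    ∀ (k : IntermediateField ℚ ℂ) (d n r : ℕ), FiniteDimensional ℚ k → Normal ℚ k →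
      finrank ℚ k ≤ d → 1 ≤ n → r ≤ 1 →
      ∀ α : Fin n → ℂ, (∀ i, α i ≠ 0) → MulIndep α →
        (∀ i, ∃ m : ℕ, 0 < m ∧ α i ^ m ∈ k ⊔ Lcm) → UniRankLE r α →
        degOver (k ⊔ Lcm) α * degMeet k α ≤ degQ α ∧
          (Real.log 2 / (2 * d * (2 ^ (d + 1) - 1) * n)) ^ n /
              (degOver (k ⊔ Lcm) α * (degMeet k α : ℝ) ^ r) ≤
            ∏ i, NumberField.absLogHeight₁ (α i) := by
  intro k d n r hf hN hd hn hr α h0 hind hrad huni
  haveI := hf
  haveI := hN
  exact final k hd hn hr α h0 hind hrad huni
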