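import Pool.Agent.helper69.SLH.Stmt

set_option autoImplicit false

/-!
# The simultaneous Lehmer problem and the rank of the conjugates over `N(μ_∞)`
-/

open Pool.Agent.helper79.SL Pool.Agent.helper69.SLG Pool.Agent.helper69.SLH

/-- `Kinf N` is the field generated by `N` and all roots of unity. -/
theorem Pool.Agent.Results.MP_8298ec_nt.RankOfConjugates.result :
    ∀ n r p D : ℕ, 1 ≤ n → p.Prime →
      ∀ N : IntermediateField ℚ ℂ, Normal ℚ N → BddLocDeg p D N →
      ∀ α : Fin n → ℂ, (∀ i, IsAlgebraic ℚ (α i)) → (∀ i, α i ≠ 0) → MulIndep α →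
        ConjRankLE (Kinf N) r α →
        degOver (Kinf N) α ≤ degQ α ∧
          (Real.log p /
              (2 * (p : ℝ) ^ (D.factorial + 2 * D + 8 * 3 ^ (r * r) + 3) * 3 ^ (r * r) * n)) ^ n /
            degOver (Kinf N) α ≤ ∏ i, NumberField.absLogHeight₁ (α i) := by
  intro n r p D hn hp N hN hD α halg h0 hind hdep
  have h := rank_rel n r p D hn hp N hN hD α halg h0 hind hdep
  push_cast at h
  exact h
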